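import Pool.Agent.Work.MP_b26df8_pr.Bd.B04

/-!
The final estimate.
-/

open MeasureTheory Matrix
open scoped ENNReal NNReal

namespace Pool.Agent.SMin

theorem DB.mono {μ : Measure ℝ} {d : ℕ} {C C' : ℝ≥0} (h : DB μ d C) (hC : C ≤ C') :
    DB μ d C' := by
  intro ι _ _ W hW
  refine (h ι W hW).trans ?_
  gcongr

theorem QSB.mono {μ : Measure ℝ} {C C' : ℝ≥0} (h : QSB μ C) (hC : C ≤ C') : QSB μ C' := by
  intro ι _ _ Θ v m x g h1 h2 h3 h4 h5
  refine (h ι Θ v m x g h1 h2 h3 h4 h5).trans ?_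
  gcongr

section

variable {ι : Type} [Fintype ι] [DecidableEq ι]

omit [Fintype ι] [DecidableEq ι] in
theorem Bm_transpose (M : Matrix ι ι ℝ) (ω : ι × ι → ℝ) :
    (Bm M ω)ᵀ = Bm Mᵀ (ω ∘ Prod.swap) := by
  ext k l
  simp [Bm]

theorem Nm_transpose (M : Matrix ι ι ℝ) (ω : ι × ι → ℝ) :
    (Nm M ω)ᵀ = Nm Mᵀ (ω ∘ Prod.swap) := by
  unfold Nm
  rw [Matrix.transpose_nonsing_inv, Bm_transpose]

theorem main_bound {μ : Measure ℝ} {K : ℝ≥0} (h : Law μ K) {C₁ C₂ C₃ : ℝ≥0}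
    (hD : DB μ 1 C₁) (hQ2 : QSB2 μ C₂) (hQ : QSB μ C₃)
    {A : ℝ} (hA1 : 1 ≤ A) (hAC1 : C₁ * Real.sqrt Real.pi ≤ A) (hAC3 : (C₃ : ℝ) ≤ A)
    (hC₁ : 0 < C₁) (hC₃ : 0 < C₃) (hcard : 2 ≤ Fintype.card ι)
    (M : Matrix ι ι ℝ) {ε : ℝ} (hε : 0 < ε) (hε1 : ε ≤ 1)
    (hdet : ∀ᵐ ω ∂(Measure.pi fun _ : ι × ι => μ), (Bm M ω).det ≠ 0) :
    (Measure.pi fun _ : ι × ι => μ) {ω | ∃ x : ι → ℝ, ∑ i, x i ^ 2 = 1 ∧
      ∑ i, (Bm M ω *ᵥ x) i ^ 2 ≤ ε ^ 2} ≤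
      ENNReal.ofReal (2 * (1080 * A + 4 * Bpair K C₁ C₂) * (ε * Real.sqrt (Fintype.card ι))) := by
  have := h.prob
  have hB0 : 0 ≤ Bpair K C₁ C₂ := by
    unfold Bpair
    have := Real.pi_pos
    have := K.coe_nonneg
    have := C₁.coe_nonneg
    have := C₂.coe_nonneg
    positivity
  set sn := Real.sqrt (Fintype.card ι) with hsn
  have hsn0 : 0 ≤ sn := Real.sqrt_nonneg _
  set g : (ι × ι → ℝ) → ℝ≥0∞ := fun ω =>
    2 * ((∑ i, ENNReal.ofReal (Fr ε (Nm M ω) i)) + (∑ j, ENNReal.ofReal (Fr ε (Nm M ω)ᵀ j)) +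
      ∑ i, ∑ j, ENNReal.ofReal (Fd ε (Nm M ω) i j)) with hg
  have hm1 : ∀ i, Measurable (fun ω => ENNReal.ofReal (Fr ε (Nm M ω) i)) :=
    fun i => (measurable_Fr_Nm ε M i).ennreal_ofReal
  have hswap : Measurable (fun ω : ι × ι → ℝ => ω ∘ Prod.swap) :=
    measurable_pi_lambda _ fun k => measurable_pi_apply _
  have hm2 : ∀ j, Measurable (fun ω => ENNReal.ofReal (Fr ε (Nm M ω)ᵀ j)) := by
    intro j
    have h1 : (fun ω => ENNReal.ofReal (Fr ε (Nm M ω)ᵀ j)) =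
        fun ω => ENNReal.ofReal (Fr ε (Nm Mᵀ (ω ∘ Prod.swap)) j) := by
      funext ω
      rw [Nm_transpose]
    rw [h1]
    exact ((measurable_Fr_Nm ε Mᵀ j).comp hswap).ennreal_ofReal
  have hm3 : ∀ i j, Measurable (fun ω => ENNReal.ofReal (Fd ε (Nm M ω) i j)) :=
    fun i j => (measurable_Fd_Nm ε M i j).ennreal_ofReal
  have hs1 : Measurable (fun ω => ∑ i, ENNReal.ofReal (Fr ε (Nm M ω) i)) :=
    Finset.measurable_fun_sum _ fun i _ => hm1 i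
  have hs2 : Measurable (fun ω => ∑ j, ENNReal.ofReal (Fr ε (Nm M ω)ᵀ j)) :=
    Finset.measurable_fun_sum _ fun i _ => hm2 i
  have hs3' : ∀ i, Measurable (fun ω => ∑ j, ENNReal.ofReal (Fd ε (Nm M ω) i j)) :=
    fun i => Finset.measurable_fun_sum _ fun j _ => hm3 i j
  have hs3 : Measurable (fun ω => ∑ i, ∑ j, ENNReal.ofReal (Fd ε (Nm M ω) i j)) :=
    Finset.measurable_fun_sum _ fun i _ => hs3' i
  have hs12 : Measurable (fun ω => (∑ i, ENNReal.ofReal (Fr ε (Nm M ω) i)) +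
      (∑ j, ENNReal.ofReal (Fr ε (Nm M ω)ᵀ j))) := hs1.add hs2
  have hgm : Measurable g := measurable_const.mul (hs12.add hs3)
  -- the event is contained in a set where g is at least one
  have hsub : {ω | ∃ x : ι → ℝ, ∑ i, x i ^ 2 = 1 ∧ ∑ i, (Bm M ω *ᵥ x) i ^ 2 ≤ ε ^ 2} ⊆
      {ω | ¬ (Bm M ω).det ≠ 0} ∪ {ω | 1 ≤ g ω} := by
    rintro ω ⟨x, hx, hle⟩
    by_cases hd : (Bm M ω).det ≠ 0
    · right
      have h1 := event_hs (Bm M ω) hd x hx (ε ^ 2) hle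
      have h2 := step0 ε (Nm M ω) h1
      have h3 : (1 : ℝ≥0∞) ≤ ENNReal.ofReal (2 * ((∑ i, Fr ε (Nm M ω) i) +
          (∑ j, Fr ε (Nm M ω)ᵀ j) + ∑ i, ∑ j, Fd ε (Nm M ω) i j)) := by
        rw [ENNReal.one_le_ofReal]
        exact h2
      refine h3.trans (le_of_eq ?_)
      have n1 : 0 ≤ ∑ i, Fr ε (Nm M ω) i := Finset.sum_nonneg fun i _ => Fr_nonneg ε _ i
      have n2 : 0 ≤ ∑ j, Fr ε (Nm M ω)ᵀ j := Finset.sum_nonneg fun i _ => Fr_nonneg ε _ i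
      have n3 : ∀ i, 0 ≤ ∑ j, Fd ε (Nm M ω) i j := fun i =>
        Finset.sum_nonneg fun j _ => Fd_nonneg ε _ i j
      rw [ENNReal.ofReal_mul (by norm_num), ENNReal.ofReal_add (add_nonneg n1 n2)
        (Finset.sum_nonneg fun i _ => n3 i), ENNReal.ofReal_add n1 n2,
        ENNReal.ofReal_sum_of_nonneg fun i _ => Fr_nonneg ε _ i,
        ENNReal.ofReal_sum_of_nonneg fun i _ => Fr_nonneg ε _ i,
        ENNReal.ofReal_sum_of_nonneg fun i _ => n3 i]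
      simp only [hg]
      congr 1
      · simp
      · congr 1
        refine Finset.sum_congr rfl fun i _ => ?_
        rw [ENNReal.ofReal_sum_of_nonneg fun j _ => Fd_nonneg ε _ i j]
    · left
      exact hd
  have hnull : (Measure.pi fun _ : ι × ι => μ) {ω | ¬ (Bm M ω).det ≠ 0} = 0 := ae_iff.1 hdet
  have hrow := row_part h hD hQ hA1 hAC1 hAC3 hC₁ hC₃ hcard M hε
  have hrowT := row_part h hD hQ hA1 hAC1 hAC3 hC₁ hC₃ hcard Mᵀ hε
  have hpair := pair_part h hD hC₁ hQ2 hcard M hε hε1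
  rw [← hsn] at hrow hrowT hpair
  have hT : ∀ j, ∫⁻ ω, ENNReal.ofReal (Fr ε (Nm M ω)ᵀ j) ∂(Measure.pi fun _ : ι × ι => μ) =
      ∫⁻ ω, ENNReal.ofReal (Fr ε (Nm Mᵀ ω) j) ∂(Measure.pi fun _ : ι × ι => μ) := by
    intro j
    rw [← lintegral_comp_injective μ (Prod.swap : ι × ι → ι × ι) Prod.swap_injective
      (fun ω => ENNReal.ofReal (Fr ε (Nm Mᵀ ω) j)) (measurable_Fr_Nm ε Mᵀ j).ennreal_ofReal]
    refine lintegral_congr fun ω => ?_
    rw [Nm_transpose]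
  have hgint : ∫⁻ ω, g ω ∂(Measure.pi fun _ : ι × ι => μ) ≤
      2 * ((ENNReal.ofReal (540 * A * ε * sn) + ENNReal.ofReal (540 * A * ε * sn)) +
        ENNReal.ofReal (4 * Bpair K C₁ C₂ * ε * sn)) := by
    have h23 : Measurable (fun ω => (∑ i, ENNReal.ofReal (Fr ε (Nm M ω) i)) +
      (∑ j, ENNReal.ofReal (Fr ε (Nm M ω)ᵀ j)) +
      ∑ i, ∑ j, ENNReal.ofReal (Fd ε (Nm M ω) i j)) := hs12.add hs3
    simp only [hg]
    rw [lintegral_const_mul _ h23, lintegral_add_left hs12, lintegral_add_left hs1,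
      lintegral_finsetSum _ fun i _ => hm1 i, lintegral_finsetSum _ fun i _ => hm2 i,
      lintegral_finsetSum _ fun i _ => hs3' i]
    refine mul_le_mul' le_rfl (add_le_add (add_le_add hrow ?_) ?_)
    · rw [Finset.sum_congr rfl fun j _ => hT j]
      exact hrowT
    · refine le_trans (le_of_eq ?_) hpair
      refine Finset.sum_congr rfl fun i _ => ?_
      rw [lintegral_finsetSum _ fun j _ => hm3 i j]
  calc (Measure.pi fun _ : ι × ι => μ) {ω | ∃ x : ι → ℝ, ∑ i, x i ^ 2 = 1 ∧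
      ∑ i, (Bm M ω *ᵥ x) i ^ 2 ≤ ε ^ 2}
      ≤ (Measure.pi fun _ : ι × ι => μ) ({ω | ¬ (Bm M ω).det ≠ 0} ∪ {ω | 1 ≤ g ω}) :=
        measure_mono hsub
    _ ≤ (Measure.pi fun _ : ι × ι => μ) {ω | ¬ (Bm M ω).det ≠ 0} +
          (Measure.pi fun _ : ι × ι => μ) {ω | 1 ≤ g ω} := measure_union_le _ _
    _ = (Measure.pi fun _ : ι × ι => μ) {ω | 1 ≤ g ω} := by rw [hnull, zero_add]
    _ ≤ ∫⁻ ω, g ω ∂(Measure.pi fun _ : ι × ι => μ) := by
        have := mul_meas_ge_le_lintegral (μ := Measure.pi fun _ : ι × ι => μ) hgm 1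
        rwa [one_mul] at this
    _ ≤ _ := hgint
    _ = _ := by
        have hA0 : 0 < A := by linarith
        rw [← ENNReal.ofReal_add (by positivity) (by positivity),
          ← ENNReal.ofReal_add (by positivity) (by positivity),
          show (2 : ℝ≥0∞) = ENNReal.ofReal 2 by simp, ← ENNReal.ofReal_mul (by norm_num)]
        congr 1
        ring

end

/-- The small-ball bound for the smallest singular value with an arbitrary shift. -/
theorem smin_bound (μ : Measure ℝ) [IsProbabilityMeasure μ]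
    (hf : ∃ f : ℝ → ℝ≥0∞, Measurable f ∧ (∃ K : ℝ≥0, ∀ x, f x ≤ (K : ℝ≥0∞)) ∧
          μ = volume.withDensity f)
    (h2 : Integrable (fun x : ℝ => x ^ 2) μ) (hmean : ∫ x, x ∂μ = 0)
    (hvar : ∫ x, x ^ 2 ∂μ = 1) :
    ∃ C : ℝ, 0 < C ∧
      ∀ (n : ℕ) (M : Matrix (Fin n) (Fin n) ℝ) (t : ℝ), 0 < t →
        Measure.pi (fun _ : Fin n × Fin n => μ)
          {ω | ∃ x : Fin n → ℝ, ∑ i, x i ^ 2 = 1 ∧
            ∑ i, ((Matrix.of (fun i j => ω (i, j)) + M) *ᵥ x) i ^ 2 ≤ t ^ 2 / (n : ℝ)}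
          ≤ ENNReal.ofReal (C * t) := by
  obtain ⟨f, -, ⟨K, hK⟩, hμ⟩ := hf
  have hdens : μ ≤ (K : ℝ≥0∞) • volume := by
    rw [hμ, ← withDensity_const]
    exact withDensity_mono (Filter.Eventually.of_forall hK)
  have h : Law μ K := ⟨inferInstance, hdens, h2, hmean, hvar⟩
  obtain ⟨C₁, hC₁⟩ := density_bound μ K h 1
  obtain ⟨C₂, hC₂⟩ := exists_QSB2 μ K h
  obtain ⟨C₃, hC₃⟩ := exists_QSB μ K h
  have hD : DB μ 1 (C₁ + 1) := hC₁.mono (by simp)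
  have hQ : QSB μ (C₃ + 1) := hC₃.mono (by simp)
  set A : ℝ := 1 + ((C₁ + 1 : ℝ≥0) : ℝ) * Real.sqrt Real.pi + ((C₃ + 1 : ℝ≥0) : ℝ) with hA
  have hp1 : 0 ≤ ((C₁ + 1 : ℝ≥0) : ℝ) * Real.sqrt Real.pi := by positivity
  have hp3 : 0 ≤ ((C₃ + 1 : ℝ≥0) : ℝ) := NNReal.coe_nonneg _
  have hA1 : 1 ≤ A := by rw [hA]; linarith
  have hA2 : ((C₁ + 1 : ℝ≥0) : ℝ) * Real.sqrt Real.pi ≤ A := by rw [hA]; linarith
  have hA3 : ((C₃ + 1 : ℝ≥0) : ℝ) ≤ A := by rw [hA]; linarith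
  set B := Bpair K (C₁ + 1 : ℝ≥0) C₂ with hBd
  have hB0 : 0 ≤ B := by
    rw [hBd]
    unfold Bpair
    have := Real.pi_pos
    have := K.coe_nonneg
    have := (C₁ + 1).coe_nonneg
    have := C₂.coe_nonneg
    positivity
  refine ⟨1 + 2 * K + 2 * (1080 * A + 4 * B), by positivity, fun n M t ht => ?_⟩
  have hC0 : 0 ≤ 2 * (1080 * A + 4 * B) := by positivity
  have hK0 : (0 : ℝ) ≤ K := K.coe_nonneg
  have hprob : IsProbabilityMeasure (Measure.pi (fun _ : Fin n × Fin n => μ)) := inferInstance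
  by_cases ht1 : 1 ≤ t
  · refine (prob_le_one (μ := Measure.pi (fun _ : Fin n × Fin n => μ))).trans ?_
    rw [ENNReal.one_le_ofReal]
    nlinarith
  push Not at ht1
  rcases Nat.lt_or_ge n 2 with hn | hn
  · interval_cases n
    · -- n = 0
      have hempty : {ω : Fin 0 × Fin 0 → ℝ | ∃ x : Fin 0 → ℝ, ∑ i, x i ^ 2 = 1 ∧
            ∑ i, ((Matrix.of (fun i j => ω (i, j)) + M) *ᵥ x) i ^ 2 ≤ t ^ 2 / ((0 : ℕ) : ℝ)} =
          ∅ := by
        ext ω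
        simp
      rw [hempty]
      simp
    · -- n = 1
      have hsub : {ω : Fin 1 × Fin 1 → ℝ | ∃ x : Fin 1 → ℝ, ∑ i, x i ^ 2 = 1 ∧
            ∑ i, ((Matrix.of (fun i j => ω (i, j)) + M) *ᵥ x) i ^ 2 ≤ t ^ 2 / ((1 : ℕ) : ℝ)} ⊆
          (fun ω : Fin 1 × Fin 1 → ℝ => ω (0, 0)) ⁻¹' (Set.Icc (-M 0 0 - t) (-M 0 0 + t)) := by
        rintro ω ⟨x, hx, hle⟩
        simp only [Finset.univ_unique, Fin.default_eq_zero, Fin.isValue, Finset.sum_singleton,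
          Matrix.mulVec, dotProduct, Matrix.add_apply, Matrix.of_apply, Nat.cast_one,
          div_one] at hx hle
        rw [mul_pow, hx, mul_one] at hle
        have h3 := abs_le_of_sq_le_sq' hle ht.le
        simp only [Set.mem_preimage, Set.mem_Icc]
        constructor <;> linarith [h3.1, h3.2]
      refine (measure_mono hsub).trans ?_
      have h4 := (measurePreserving_eval (fun _ : Fin 1 × Fin 1 => μ) (0, 0)).measure_preimage
        (measurableSet_Icc (a := -M 0 0 - t) (b := -M 0 0 + t)).nullMeasurableSet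
      have h5 : (Measure.pi fun _ : Fin 1 × Fin 1 => μ)
          ((fun ω : Fin 1 × Fin 1 → ℝ => ω (0, 0)) ⁻¹' (Set.Icc (-M 0 0 - t) (-M 0 0 + t))) =
          μ (Set.Icc (-M 0 0 - t) (-M 0 0 + t)) := h4
      rw [h5]
      refine (hdens _).trans ?_
      rw [Measure.smul_apply, Real.volume_Icc, smul_eq_mul, ← ENNReal.ofReal_coe_nnreal,
        ← ENNReal.ofReal_mul hK0]
      refine ENNReal.ofReal_le_ofReal ?_
      nlinarith [mul_nonneg hC0 ht.le]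
  · -- n ≥ 2
    have hn0 : (0 : ℝ) < n := by exact_mod_cast (by omega : 0 < n)
    have hn1 : (1 : ℝ) ≤ n := by exact_mod_cast (by omega : 1 ≤ n)
    have hsn : 0 < Real.sqrt n := Real.sqrt_pos.2 hn0
    have hsn1 : 1 ≤ Real.sqrt n := Real.one_le_sqrt.2 hn1
    have hcard : 2 ≤ Fintype.card (Fin n) := by simpa using hn
    have hε0 : 0 < t / Real.sqrt n := by positivity
    have hε1 : t / Real.sqrt n ≤ 1 := by
      rw [div_le_one hsn]
      linarith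
    have hε2 : t ^ 2 / (n : ℝ) = (t / Real.sqrt n) ^ 2 := by
      rw [div_pow, Real.sq_sqrt hn0.le]
    have hmain := main_bound h hD hC₂ hQ hA1 hA2 hA3 (by positivity) (by positivity) hcard M
      hε0 hε1 (det_ne_zero_ae μ K h n M)
    rw [hε2]
    refine hmain.trans (ENNReal.ofReal_le_ofReal ?_)
    rw [Fintype.card_fin, div_mul_cancel₀ _ hsn.ne', ← hBd]
    nlinarith [mul_nonneg hK0 ht.le]

end Pool.Agent.SMin
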